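import Pool.Agent.W555.KS.Defs

/-!
# KS-EMBR: a complex embedded in `ℝ^r` gives a conical almost-embedding in `ℝ^(r+1)`
-/

set_option autoImplicit false

namespace Pool.Agent.W975.KS

open Finset Filter Topology
open Pool.Agent.W555.KS

/-- the realization -/
def Rl {n : ℕ} (K : Finset (Finset (Fin n))) : Set (Fin n → ℝ) :=
  {x : Fin n → ℝ | (∀ i, 0 ≤ x i) ∧ ∑ i, x i = 1 ∧ ∃ σ ∈ K, ∀ i, i ∉ σ → x i = 0}

theorem rl_compact {n : ℕ} (K : Finset (Finset (Fin n))) : IsCompact (Rl K) := by
  have hsub : Rl K ⊆ Set.Icc (fun _ => (0 : ℝ)) (fun _ => 1) := by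
    rintro x ⟨h0, h1, _⟩
    refine ⟨fun i => h0 i, fun i => ?_⟩
    show x i ≤ 1
    rw [← h1]
    exact Finset.single_le_sum (f := x) (fun j _ => h0 j) (mem_univ i)
  have hcl : IsClosed (Rl K) := by
    have heq : Rl K = ({x : Fin n → ℝ | ∀ i, 0 ≤ x i} ∩ {x | ∑ i, x i = 1}) ∩
        ⋃ σ ∈ K, {x : Fin n → ℝ | ∀ i, i ∉ σ → x i = 0} := by
      ext x
      simp only [Rl, Set.mem_setOf_eq, Set.mem_inter_iff, Set.mem_iUnion, exists_prop, and_assoc]
    rw [heq]
    refine IsClosed.inter (IsClosed.inter ?_ ?_) ?_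
    · have : {x : Fin n → ℝ | ∀ i, 0 ≤ x i} = ⋂ i, {x | 0 ≤ x i} := by ext; simp
      rw [this]
      exact isClosed_iInter fun i => isClosed_le continuous_const (continuous_apply i)
    · exact isClosed_eq (continuous_finset_sum _ fun i _ => continuous_apply i) continuous_const
    · refine Set.Finite.isClosed_biUnion K.finite_toSet ?_
      intro σ _
      have : {x : Fin n → ℝ | ∀ i, i ∉ σ → x i = 0} = ⋂ i, ⋂ (_ : i ∉ σ), {x | x i = 0} := by
        ext; simp
      rw [this]
      exact isClosed_iInter fun i => isClosed_iInter fun _ =>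
        isClosed_eq (continuous_apply i) continuous_const
  exact isCompact_Icc.of_isClosed_subset hcl hsub

theorem norm_mem {n : ℕ} (K : Finset (Finset (Fin n))) (hne : ∀ σ ∈ K, σ.Nonempty)
    (x : Fin n → ℝ) (hx : x ∈ coneSet (insert ∅ K)) (hS : 0 < ∑ i, x i) :
    (fun i => (∑ l, x l)⁻¹ * x i) ∈ Rl K := by
  obtain ⟨h0, σ, hσ, hs⟩ := hx
  refine ⟨fun i => mul_nonneg (inv_nonneg.2 hS.le) (h0 i), ?_, ?_⟩
  · rw [← Finset.mul_sum]
    exact inv_mul_cancel₀ hS.ne'
  · rw [mem_insert] at hσ
    rcases hσ with rfl | hσ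
    · exfalso
      have : ∑ i, x i = 0 := Finset.sum_eq_zero fun i _ => hs i (by simp)
      linarith
    · exact ⟨σ, hσ, fun i hi => by
        show (∑ l, x l)⁻¹ * x i = 0
        rw [hs i hi, mul_zero]⟩

theorem eq_zero_of {n : ℕ} (x : Fin n → ℝ) (h0 : ∀ i, 0 ≤ x i) (hS : ∑ i, x i = 0) : x = 0 := by
  funext i
  exact (Finset.sum_eq_zero_iff_of_nonneg fun j _ => h0 j).1 hS i (mem_univ i)

theorem embR : StEmbR := by
  classical
  intro n r K hK hne hf
  obtain ⟨f, hfc, hfi⟩ := hf
  change ContinuousOn f (Rl K) at hfc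
  change Set.InjOn f (Rl K) at hfi
  refine ⟨⟨mem_insert_self _ _, ?_⟩, ?_⟩
  · intro σ hσ τ hτ
    rw [mem_insert] at hσ ⊢
    by_cases h : τ = ∅
    · left; exact h
    · right
      have hτn : τ.Nonempty := nonempty_iff_ne_empty.2 h
      rcases hσ with rfl | hσ
      · exact absurd (subset_empty.1 hτ) h
      · exact hK σ hσ τ hτ hτn
  set G : Fin r → (Fin n → ℝ) → ℝ := fun j x =>
    (∑ i, x i) * (f (fun i => (∑ l, x l)⁻¹ * x i)) j with hG
  refine ⟨fun x => Fin.snoc (fun j => G j x) (∑ i, x i), ?_, ?_⟩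
  · rw [continuousOn_pi]
    intro j
    refine Fin.lastCases ?_ (fun j => ?_) j
    · simp only [Fin.snoc_last]
      exact (continuous_finset_sum _ fun i _ => continuous_apply i).continuousOn
    · simp only [Fin.snoc_castSucc]
      -- boundedness
      have hbd : ∃ B : ℝ, 0 ≤ B ∧ ∀ y ∈ Rl K, |(f y) j| ≤ B := by
        have hc : ContinuousOn (fun y => (f y) j) (Rl K) := by
          have : Continuous fun v : EuclideanSpace ℝ (Fin r) => v j := by fun_prop
          exact this.comp_continuousOn hfc
        obtain ⟨B, hB⟩ := (rl_compact K).exists_bound_of_continuousOn hc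
        exact ⟨max B 0, le_max_right _ _, fun y hy => (hB y hy).trans (le_max_left _ _)⟩
      obtain ⟨B, hB0, hB⟩ := hbd
      have hsum : Continuous fun y : Fin n → ℝ => ∑ i, y i :=
        continuous_finset_sum _ fun i _ => continuous_apply i
      intro x hx
      by_cases hS : ∑ i, x i = 0
      · have hGx : G j x = 0 := by simp only [hG]; rw [hS, zero_mul]
        show Tendsto (fun y => G j y) (𝓝[coneSet (insert ∅ K)] x) (𝓝 (G j x))
        rw [hGx]
        have hle : ∀ᶠ y in 𝓝[coneSet (insert ∅ K)] x, ‖G j y‖ ≤ B * ∑ i, y i := by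
          filter_upwards [self_mem_nhdsWithin] with y hy
          have hy0 : 0 ≤ ∑ i, y i := Finset.sum_nonneg fun i _ => hy.1 i
          rcases hy0.lt_or_eq with h | h
          · simp only [hG]
            rw [norm_mul, Real.norm_eq_abs, Real.norm_eq_abs, abs_of_pos h, mul_comm]
            exact mul_le_mul_of_nonneg_right (hB _ (norm_mem K hne y hy h)) h.le
          · simp only [hG]
            rw [← h]; simp
        refine squeeze_zero_norm' hle ?_
        have h1 : Tendsto (fun y : Fin n → ℝ => B * ∑ i, y i) (𝓝 x) (𝓝 (B * ∑ i, x i)) :=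
          (continuous_const.mul hsum).continuousAt
        rw [hS, mul_zero] at h1
        exact h1.mono_left nhdsWithin_le_nhds
      · have hSp : 0 < ∑ i, x i :=
          lt_of_le_of_ne (Finset.sum_nonneg fun i _ => hx.1 i) (Ne.symm hS)
        have hopen : {y : Fin n → ℝ | 0 < ∑ i, y i} ∈ 𝓝 x :=
          (isOpen_lt continuous_const hsum).mem_nhds hSp
        rw [← continuousWithinAt_inter hopen]
        have hN : ContinuousWithinAt (fun y : Fin n → ℝ => fun i => (∑ l, y l)⁻¹ * y i)
            (coneSet (insert ∅ K) ∩ {y | 0 < ∑ i, y i}) x := by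
          rw [continuousWithinAt_pi]
          intro i
          exact ((hsum.continuousAt.inv₀ hS).mul (continuous_apply i).continuousAt).continuousWithinAt
        have hmaps : Set.MapsTo (fun y : Fin n → ℝ => fun i => (∑ l, y l)⁻¹ * y i)
            (coneSet (insert ∅ K) ∩ {y | 0 < ∑ i, y i}) (Rl K) := by
          rintro y ⟨hy, hy2⟩
          exact norm_mem K hne y hy hy2
        have hfN := (hfc _ (norm_mem K hne x hx hSp)).comp hN hmaps
        have hpr : Continuous fun v : EuclideanSpace ℝ (Fin r) => v j := by fun_prop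
        exact hsum.continuousAt.continuousWithinAt.mul
          (hpr.continuousAt.comp_continuousWithinAt hfN)
  · intro x hx y hy hd hF
    have hlast : ∑ i, x i = ∑ i, y i := by
      have := congrFun hF (Fin.last r)
      simpa only [Fin.snoc_last] using this
    have hcoord : ∀ j, G j x = G j y := by
      intro j
      have := congrFun hF j.castSucc
      simpa only [Fin.snoc_castSucc] using this
    by_cases hS : ∑ i, x i = 0
    · exact ⟨eq_zero_of x hx.1 hS, eq_zero_of y hy.1 (hlast ▸ hS)⟩
    · exfalso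
      have hSp : 0 < ∑ i, x i :=
        lt_of_le_of_ne (Finset.sum_nonneg fun i _ => hx.1 i) (Ne.symm hS)
      have hSp' : 0 < ∑ i, y i := hlast ▸ hSp
      have hfe : f (fun i => (∑ l, x l)⁻¹ * x i) = f (fun i => (∑ l, y l)⁻¹ * y i) := by
        ext j
        have h1 := hcoord j
        simp only [hG] at h1
        rw [← hlast] at h1
        have h2 := mul_left_cancel₀ hS h1
        rw [← hlast]
        exact h2
      have h3 := hfi (norm_mem K hne x hx hSp) (norm_mem K hne y hy hSp') hfe
      have h4 : x = y := by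
        funext i
        have h5 := congrFun h3 i
        simp only [← hlast] at h5
        exact mul_left_cancel₀ (inv_ne_zero hS) h5
      have h6 : ∑ i, x i = 0 := by
        apply Finset.sum_eq_zero
        intro i _
        rcases hd i with h | h
        · exact h
        · rw [h4]; exact h
      exact hS h6

end Pool.Agent.W975.KS
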